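import Pool.Agent.Helper52.SG.Goals2
import Mathlib.GroupTheory.Focal
import Mathlib.GroupTheory.Nilpotent

/-!
# Project SG: FRO

Frobenius' normal complement theorem.
-/

set_option autoImplicit false

namespace Pool.Agent.Helper32.SG.FRO

open Subgroup Pool.H83Shunkov Pool.Agent.Helper29.SH Pool.Agent.Helper52.SG
open scoped commutatorElement

/-- an element of `r`-power order and of order prime to `r` is trivial -/
theorem aux_one {G : Type*} [Group G] {r : ℕ} (hr : r.Prime) {c : G} {k : ℕ}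
    (h1 : c ^ r ^ k = 1) (h2 : ¬ r ∣ orderOf c) : c = 1 := by
  have h3 : orderOf c ∣ r ^ k := orderOf_dvd_of_pow_eq_one h1
  obtain ⟨j, _, hj⟩ := (Nat.dvd_prime_pow hr).1 h3
  rw [hj] at h2
  have h0 : j = 0 := by
    by_contra hne
    exact h2 (dvd_pow_self r hne)
  rw [h0, pow_zero] at hj
  exact orderOf_eq_one_iff.1 hj

theorem index_cj {G : Type} [Group G] [Finite G] (K : Subgroup G) (g : G) :
    (cj K g).index = K.index := by
  have h1 := (cj K g).card_mul_index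
  have h2 := K.card_mul_index
  rw [card_cj, ← h2] at h1
  exact Nat.eq_of_mul_eq_mul_left Nat.card_pos h1

/-- fusion is controlled by `P` -/
theorem fusion (hPNO : S_PNO) (hFR1 : S_FR1) {G : Type} [Group G] [Finite G] {r : ℕ}
    (hr : r.Prime) (h : ∀ U : Subgroup G, IsPGroup r U → U ≠ ⊥ → PN r (normalizer (U : Set G)))
    {P : Subgroup G} (hP : IsPGroup r P) (hidx : ¬ r ∣ P.index) (hne : P ≠ ⊥) {x g : G}
    (hx : x ∈ P) (hxg : g⁻¹ * x * g ∈ P) : ∃ u ∈ P, g⁻¹ * x * g = u⁻¹ * x * u := by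
  have : Fact r.Prime := ⟨hr⟩
  obtain ⟨c, hc, hcS⟩ := hFR1 G r hr h P (cj P g⁻¹) hP hidx (cj_isPGroup hP g⁻¹)
    (by rw [index_cj]; exact hidx)
  have hxS : x ∈ P ⊓ cj P g⁻¹ := by
    rw [mem_inf, mem_cj, inv_inv]
    exact ⟨hx, hxg⟩
  have hcx : x * c = c * x := by
    rw [mem_centralizer_iff] at hc
    exact hc x hxS
  rw [cj_mul, ← mem_normalizer_iff_cj] at hcS
  obtain ⟨n, hn⟩ : ∃ n, n = g⁻¹ * c := ⟨_, rfl⟩
  rw [← hn] at hcS
  -- `N = O P`
  obtain ⟨O, hO, hOc, hOp⟩ := hPNO G r hr (normalizer (P : Set G)) (h P hP hne)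
  have hdec : ∃ o ∈ O, ∃ v ∈ P, n = o * v := by
    obtain ⟨k, hk⟩ := hOp n hcS
    obtain ⟨m, hm⟩ : ∃ m, m = orderOf (n ^ r ^ k) := ⟨_, rfl⟩
    have hm' : ¬ r ∣ m := by rw [hm]; exact ((hO _).1 hk).2
    have hnm : n ^ m ∈ P := by
      have h1 : (n ^ m) ^ r ^ k = 1 := by
        rw [← pow_mul, mul_comm, pow_mul, hm, pow_orderOf_eq_one]
      have h2 : IsPGroup r (zpowers (n ^ m)) := by
        rintro ⟨y, hy⟩
        obtain ⟨j, rfl⟩ := mem_zpowers_iff.1 hy
        refine ⟨k, ?_⟩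
        apply Subtype.ext
        show ((n ^ m) ^ j) ^ r ^ k = 1
        rw [← zpow_natCast, ← zpow_mul, mul_comm, zpow_mul, zpow_natCast, h1, one_zpow]
      have h3 := h2.inf_normalizer_sylow (hP.toSylow hidx)
      have h4 : n ^ m ∈ zpowers (n ^ m) ⊓ normalizer ((hP.toSylow hidx : Sylow r G) : Set G) :=
        mem_inf.2 ⟨mem_zpowers _, pow_mem hcS m⟩
      rw [h3, mem_inf] at h4
      have h5 := h4.2
      have h6 : (hP.toSylow hidx : Subgroup G) = P := by simp
      rwa [h6] at h5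
    have hcop : Nat.Coprime (r ^ k) m :=
      Nat.Coprime.pow_left k ((Nat.Prime.coprime_iff_not_dvd hr).2 hm')
    have hbez := Nat.gcd_eq_gcd_ab (r ^ k) m
    rw [hcop.gcd_eq_one] at hbez
    refine ⟨(n ^ r ^ k) ^ (Nat.gcdA (r ^ k) m), O.zpow_mem hk _,
      (n ^ m) ^ (Nat.gcdB (r ^ k) m), P.zpow_mem hnm _, ?_⟩
    rw [← zpow_natCast n (r ^ k), ← zpow_natCast n m, ← zpow_mul, ← zpow_mul, ← zpow_add, ← hbez]
    simp
  have hON : ∀ o ∈ O, o ∈ normalizer (P : Set G) := fun o ho => ((hO o).1 ho).1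
  have hPN : P ≤ normalizer (P : Set G) := le_normalizer
  have hcomm : ∀ o ∈ O, ∀ v ∈ P, o * v * o⁻¹ = v := by
    intro o ho v hv
    have h1 : o * v * o⁻¹ * v⁻¹ ∈ P := by
      refine P.mul_mem ?_ (P.inv_mem hv)
      have := hON o ho
      rw [mem_normalizer_iff] at this
      exact (this v).1 hv
    have h2 : o * v * o⁻¹ * v⁻¹ ∈ O := by
      have h3 : v * o⁻¹ * v⁻¹ ∈ O := by
        rw [hO]
        refine ⟨mul_mem (mul_mem (hPN hv) (inv_mem (hON o ho))) (inv_mem (hPN hv)), ?_⟩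
        have h4 : orderOf ((MulAut.conj v) o⁻¹) = orderOf o⁻¹ :=
          orderOf_injective (MulAut.conj v).toMonoidHom (MulAut.conj v).injective o⁻¹
        have h5 : (MulAut.conj v) o⁻¹ = v * o⁻¹ * v⁻¹ := rfl
        rw [← h5, h4, orderOf_inv]
        exact ((hO o).1 ho).2
      have := O.mul_mem ho h3
      have e : o * (v * o⁻¹ * v⁻¹) = o * v * o⁻¹ * v⁻¹ := by group
      rwa [e] at this
    obtain ⟨k, hk⟩ := hP ⟨_, h1⟩
    have h3 : (o * v * o⁻¹ * v⁻¹) ^ r ^ k = 1 := congrArg Subtype.val hk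
    have h4 := aux_one hr h3 ((hO _).1 h2).2
    exact mul_inv_eq_one.1 h4
  obtain ⟨o, ho, v, hv, hov⟩ := hdec
  refine ⟨v⁻¹, P.inv_mem hv, ?_⟩
  have h1 : g⁻¹ * x * g = n * x * n⁻¹ := by
    have h2 : x = c * x * c⁻¹ := by rw [← hcx]; group
    rw [hn]
    calc g⁻¹ * x * g = g⁻¹ * (c * x * c⁻¹) * g := by rw [← h2]
      _ = g⁻¹ * c * x * (g⁻¹ * c)⁻¹ := by group
  rw [h1, hov]
  have h2 := hcomm o ho (v * x * v⁻¹) (P.mul_mem (P.mul_mem hv hx) (P.inv_mem hv))
  calc o * v * x * (o * v)⁻¹ = o * (v * x * v⁻¹) * o⁻¹ := by group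
    _ = v * x * v⁻¹ := h2
    _ = v⁻¹⁻¹ * x * v⁻¹ := by group

theorem t (hPNO : Pool.Agent.Helper52.SG.S_PNO) (hFR1 : Pool.Agent.Helper52.SG.S_FR1) :
    Pool.Agent.Helper52.SG.S_FRO := by
  -- strong induction
  have key : ∀ N : ℕ, ∀ (G : Type) [Group G] [Finite G] (r : ℕ), Nat.card G = N → r.Prime →
      (∀ U : Subgroup G, IsPGroup r U → U ≠ ⊥ → PN r (normalizer (U : Set G))) →
      PN r (⊤ : Subgroup G) := by
    intro N
    induction N using Nat.strong_induction_on with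
    | _ N ih =>
    intro G _ _ r hN hr h
    have : Fact r.Prime := ⟨hr⟩
    by_cases hrG : r ∣ Nat.card G
    swap
    · intro x _ y _ _ _ hd
      exact hrG (hd.trans (orderOf_dvd_natCard _))
    obtain ⟨Q⟩ : Nonempty (Sylow r G) := inferInstance
    have hQne : (Q : Subgroup G) ≠ ⊥ := Q.ne_bot_of_dvd_card hrG
    have hQidx : ¬ r ∣ (Q : Subgroup G).index := Q.not_dvd_index
    have hfus : ∀ x g : G, x ∈ (Q : Subgroup G) → g⁻¹ * x * g ∈ (Q : Subgroup G) →
        ∃ u ∈ (Q : Subgroup G), g⁻¹ * x * g = u⁻¹ * x * u := fun x g hx hxg =>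
      fusion hPNO hFR1 hr h Q.isPGroup' hQidx hQne hx hxg
    -- the focal subgroup
    have hfoc : (Q : Subgroup G).focalSubgroup ≤ ⁅(Q : Subgroup G), (Q : Subgroup G)⁆ := by
      rw [focalSubgroup_def, closure_le]
      rintro _ ⟨hg, x, hx, u, rfl⟩
      rw [commutatorElement_def] at hg ⊢
      have h1 : (u⁻¹)⁻¹ * x⁻¹ * u⁻¹ ∈ (Q : Subgroup G) := by
        have := mul_mem (inv_mem hx) hg
        have e : x⁻¹ * (x * u * x⁻¹ * u⁻¹) = (u⁻¹)⁻¹ * x⁻¹ * u⁻¹ := by group
        rwa [e] at this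
      obtain ⟨v, hv, hv2⟩ := hfus x⁻¹ u⁻¹ (inv_mem hx) h1
      have e : x * u * x⁻¹ * u⁻¹ = ⁅x, v⁻¹⁆ := by
        rw [commutatorElement_def]
        calc x * u * x⁻¹ * u⁻¹ = x * ((u⁻¹)⁻¹ * x⁻¹ * u⁻¹) := by group
          _ = x * (v⁻¹ * x⁻¹ * v) := by rw [hv2]
          _ = x * v⁻¹ * x⁻¹ * (v⁻¹)⁻¹ := by group
      rw [SetLike.mem_coe, e]
      exact commutator_mem_commutator hx (inv_mem hv)
    have hnontriv : Nontrivial (Q : Subgroup G) := (Subgroup.nontrivial_iff_ne_bot _).2 hQne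
    have hnil : Group.IsNilpotent (Q : Subgroup G) := Q.isPGroup'.isNilpotent
    have hcl : _root_.commutator (Q : Subgroup G) ≠ ⊤ :=
      (Group.IsSolvable.commutator_lt_top_of_nontrivial (Q : Subgroup G)).ne
    have hfocne : (Q : Subgroup G).focalSubgroup ≠ Q := by
      intro he
      apply hcl
      rw [he] at hfoc
      rw [eq_top_iff]
      intro x _
      have hx : (x : G) ∈ ⁅(Q : Subgroup G), (Q : Subgroup G)⁆ := hfoc x.2
      rw [← Subgroup.map_subtype_commutator] at hx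
      obtain ⟨y, hy, hyx⟩ := hx
      have : y = x := Subtype.ext hyx
      rwa [this] at hy
    -- the kernel of the transfer
    obtain ⟨K, hK⟩ : ∃ K : Subgroup G, K = (Q : Subgroup G).transferFocal.ker := ⟨_, rfl⟩
    have hKinf : K ⊓ Q = (Q : Subgroup G).focalSubgroup := by
      rw [hK]
      exact ker_transferFocal_inf_eq_focalSubgroup Q
    have hKtop : K ≠ ⊤ := by
      intro he
      rw [he, top_inf_eq] at hKinf
      exact hfocne hKinf.symm
    have hKlt : Nat.card K < N := by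
      rw [← hN]
      have h1 : Nat.card K ≤ Nat.card G := Nat.card_le_card_of_injective _ K.subtype_injective
      rcases lt_or_eq_of_le h1 with h2 | h2
      · exact h2
      · exact (hKtop (Subgroup.eq_top_of_card_eq K h2)).elim
    have hmemK : ∀ x : G, ¬ r ∣ orderOf x → x ∈ K := by
      intro x hx
      rw [hK, MonoidHom.mem_ker]
      have hq : IsPGroup r ((Q : Subgroup G) ⧸ (Q : Subgroup G).focalSubgroupOf) :=
        Q.isPGroup'.to_quotient _
      obtain ⟨k, hk⟩ := hq ((Q : Subgroup G).transferFocal x)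
      refine aux_one hr hk ?_
      intro hd
      exact hx (hd.trans (orderOf_map_dvd _ x))
    have hKPN : PN r (⊤ : Subgroup K) := by
      refine ih (Nat.card K) hKlt K r rfl hr ?_
      intro U hU hUne
      have h1 : IsPGroup r (U.map K.subtype) := hU.map _
      have h2 : U.map K.subtype ≠ ⊥ := by
        intro hb
        rw [Subgroup.map_eq_bot_iff, K.ker_subtype] at hb
        exact hUne (le_bot_iff.1 hb)
      refine PN.comap K.subtype_injective (L := normalizer ((U.map K.subtype : Subgroup G) : Set G)) ?_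
        (h _ h1 h2)
      rintro _ ⟨y, hy, rfl⟩
      have hy' : y ∈ normalizer (U : Set K) := hy
      rw [mem_normalizer_iff] at hy' ⊢
      intro z
      constructor
      · rintro ⟨w, hw, rfl⟩
        exact ⟨y * w * y⁻¹, (hy' w).1 hw, rfl⟩
      · rintro ⟨w, hw, hwz⟩
        have hw' : w ∈ U := hw
        refine ⟨y⁻¹ * w * y, ?_, ?_⟩
        · show y⁻¹ * w * y ∈ U
          rw [hy' (y⁻¹ * w * y)]
          have e : y * (y⁻¹ * w * y) * y⁻¹ = w := by group
          rwa [e]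
        · show (y : G)⁻¹ * (w : G) * (y : G) = z
          have hwz' : (w : G) = (y : G) * z * (y : G)⁻¹ := hwz
          rw [hwz']
          group
    rw [PN.sub] at hKPN
    intro x _ y _ hx hy
    exact hKPN x (hmemK x hx) y (hmemK y hy) hx hy
  intro G _ _ r hr h
  exact key (Nat.card G) G r rfl hr h

end Pool.Agent.Helper32.SG.FRO
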