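import Pool.Agent.Helper52.SG.Goals2
import Mathlib.GroupTheory.SchurZassenhaus

/-!
# Project SG: MC1

The subgroups `T` and `K` of a counterexample of least order to Thompson's theorem.
-/

set_option autoImplicit false

namespace Pool.Agent.Helper32.SG.MC1

open Subgroup Pool.H83Shunkov Pool.Agent.Helper29.SH Pool.Agent.Helper52.SG

/-- powers prime to `r` are detected -/
theorem aux_pow {G : Type} [Group G] {r : ℕ} (hr : r.Prime) {H : Subgroup G} {c : G} {k m : ℕ}
    (h1 : c ^ r ^ k ∈ H) (h2 : c ^ m ∈ H) (hm : ¬ r ∣ m) : c ∈ H := by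
  have hcop : Nat.Coprime (r ^ k) m := Nat.Coprime.pow_left k ((Nat.Prime.coprime_iff_not_dvd hr).2 hm)
  have hbez := Nat.gcd_eq_gcd_ab (r ^ k) m
  rw [hcop.gcd_eq_one] at hbez
  have e : c = (c ^ r ^ k) ^ (Nat.gcdA (r ^ k) m) * (c ^ m) ^ (Nat.gcdB (r ^ k) m) := by
    rw [← zpow_natCast c (r ^ k), ← zpow_natCast c m, ← zpow_mul, ← zpow_mul, ← zpow_add, ← hbez]
    simp
  rw [e]
  exact H.mul_mem (H.zpow_mem h1 _) (H.zpow_mem h2 _)

/-- A group with a central `r`-subgroup whose index is prime to `r`. -/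
theorem aux_central {C : Type} [Group C] [Finite C] {r : ℕ} (hr : r.Prime) (Z : Subgroup C)
    (hZ : IsPGroup r Z) (hcen : ∀ z ∈ Z, ∀ c : C, z * c = c * z) (hidx : ¬ r ∣ Z.index) :
    ∃ E : Subgroup C, ¬ r ∣ Nat.card E ∧ (∀ c : C, ¬ r ∣ orderOf c → c ∈ E) ∧ Z ⊔ E = ⊤ := by
  have : Fact r.Prime := ⟨hr⟩
  have hn : Z.Normal := by
    constructor
    intro z hz c
    have e : c * z * c⁻¹ = z := by rw [← hcen z hz c]; group
    rwa [e]
  have hcop : Nat.Coprime (Nat.card Z) Z.index := by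
    obtain ⟨k, hk⟩ := hZ.exists_card_eq
    rw [hk]
    exact Nat.Coprime.pow_left k ((Nat.Prime.coprime_iff_not_dvd hr).2 hidx)
  obtain ⟨E, hE⟩ := exists_right_complement'_of_coprime hcop
  have hcardE : ¬ r ∣ Nat.card E := by
    have := hE.symm.index_eq_card
    rwa [← this]
  refine ⟨E, hcardE, ?_, hE.sup_eq_top⟩
  intro c hc
  have hc' : c ∈ Z ⊔ E := by rw [hE.sup_eq_top]; trivial
  obtain ⟨z, hz, e, he, hze⟩ := mem_sup_of_normal_left.1 hc'
  have hcomm : Commute z e := hcen z hz e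
  obtain ⟨k, hk⟩ := hZ ⟨z, hz⟩
  have hk' : z ^ r ^ k = 1 := by
    have := congrArg Subtype.val hk
    simpa using this
  have hN : ¬ r ∣ orderOf c * Nat.card E := by
    intro hd
    rcases (Nat.Prime.dvd_mul hr).1 hd with h | h
    · exact hc h
    · exact hcardE h
  have hz1 : z ^ (orderOf c * Nat.card E) = 1 := by
    have h1 : c ^ (orderOf c * Nat.card E) = 1 := by rw [pow_mul, pow_orderOf_eq_one, one_pow]
    have h2 : e ^ (orderOf c * Nat.card E) = 1 := by
      have h3 : e ^ Nat.card E = 1 := by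
        have h4 : (⟨e, he⟩ : E) ^ Nat.card E = 1 := pow_card_eq_one'
        exact congrArg Subtype.val h4
      rw [mul_comm, pow_mul, h3, one_pow]
    generalize orderOf c * Nat.card E = N at h1 h2 ⊢
    rw [← hze, hcomm.mul_pow, h2, mul_one] at h1
    exact h1
  have hzbot : z ∈ (⊥ : Subgroup C) :=
    aux_pow hr (H := ⊥) (k := k) (by rw [hk']; exact one_mem _) (by rw [hz1]; exact one_mem _) hN
  rw [mem_bot] at hzbot
  rw [← hze, hzbot, one_mul]
  exact he

theorem t (hPNO : Pool.Agent.Helper52.SG.S_PNO) (hMNOR : Pool.Agent.Helper52.SG.S_MNOR)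
    (hMQ : Pool.Agent.Helper52.SG.S_MQ) (hME : Pool.Agent.Helper52.SG.S_ME) :
    Pool.Agent.Helper52.SG.S_MC1 := by
  intro G _ r P hMC
  have := hMC.fin
  have hr := hMC.hr
  have : Fact r.Prime := ⟨hr⟩
  -- normal `r`-subgroups lie in `P`
  have hP : ∀ U : Subgroup G, U.Normal → IsPGroup r U → U ≤ P := by
    intro U hU hUp
    have h1 : IsPGroup r (U ⊔ P : Subgroup G) := IsPGroup.to_sup_of_normal_left hUp hMC.pg
    have h2 := (hMC.pg.toSylow hMC.idx).is_maximal' h1 (by
      intro x hx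
      exact (le_sup_right : P ≤ U ⊔ P) hx)
    have h3 : U ⊔ P = P := h2
    rw [← h3]
    exact le_sup_left
  obtain ⟨T, hTdef⟩ : ∃ T : Subgroup G, T = P.normalCore := ⟨_, rfl⟩
  have hTn : T.Normal := by rw [hTdef]; infer_instance
  have hTle : T ≤ P := by rw [hTdef]; exact P.normalCore_le
  have hTp : IsPGroup r T := hMC.pg.to_le hTle
  have hTmax : ∀ U : Subgroup G, U.Normal → IsPGroup r U → U ≤ T := by
    intro U hU hUp
    have := hU
    rw [hTdef]
    exact normal_le_normalCore.2 (hP U hU hUp)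
  have hor : IsOr r T := ⟨hTn, hTp, hTmax⟩
  have hTne : T ≠ ⊥ := by
    obtain ⟨U, hUn, hUp, hU⟩ := hMNOR G r P hMC
    intro h
    have := hTmax U hUn hUp
    rw [h] at this
    exact hU (le_bot_iff.1 this)
  have hPN := hMQ G r P hMC T hor hTne
  obtain ⟨O, hO, hOcard, hOpow⟩ := hPNO (G ⧸ T) r hr ⊤ hPN
  have hOn : O.Normal := by
    constructor
    intro x hx g
    rw [hO] at hx ⊢
    refine ⟨trivial, ?_⟩
    have h1 : orderOf ((MulAut.conj g) x) = orderOf x :=
      orderOf_injective (MulAut.conj g).toMonoidHom (MulAut.conj g).injective x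
    have h2 : (MulAut.conj g) x = g * x * g⁻¹ := rfl
    rw [← h2, h1]
    exact hx.2
  obtain ⟨K, hKdef⟩ : ∃ K : Subgroup G, K = O.comap (QuotientGroup.mk' T) := ⟨_, rfl⟩
  have hKn : K.Normal := by rw [hKdef]; infer_instance
  have hpr : ∀ x ∈ K, ∃ m : ℕ, ¬ r ∣ m ∧ x ^ m ∈ T := by
    intro x hx
    rw [hKdef, mem_comap, hO] at hx
    refine ⟨orderOf (QuotientGroup.mk' T x), hx.2, ?_⟩
    have h1 : (QuotientGroup.mk' T) (x ^ orderOf (QuotientGroup.mk' T x)) = 1 := by
      rw [map_pow, pow_orderOf_eq_one]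
    have h2 : x ^ orderOf (QuotientGroup.mk' T x) ∈ (QuotientGroup.mk' T).ker := h1
    rwa [QuotientGroup.ker_mk'] at h2
  have hTK : T ≤ K := by
    intro x hx
    rw [hKdef, mem_comap]
    have h1 : (QuotientGroup.mk' T) x = 1 := by
      have : x ∈ (QuotientGroup.mk' T).ker := by rwa [QuotientGroup.ker_mk']
      exact this
    rw [h1]
    exact one_mem _
  refine ⟨T, K, hor, hTne, hKn, hTK, ?_, hpr, ?_⟩
  · intro g
    obtain ⟨n, hn⟩ := hOpow (QuotientGroup.mk' T g) trivial
    refine ⟨n, ?_⟩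
    rw [hKdef, mem_comap, map_pow]
    exact hn
  · -- the centralizer
    obtain ⟨C, hCdef⟩ : ∃ C : Subgroup G, C = K ⊓ centralizer (T : Set G) := ⟨_, rfl⟩
    have hCn : C.Normal := by rw [hCdef]; infer_instance
    have hCK : C ≤ K := by rw [hCdef]; exact inf_le_left
    have hCT : ∀ c ∈ C, ∀ z ∈ T, z * c = c * z := by
      intro c hc z hz
      rw [hCdef, mem_inf, mem_centralizer_iff] at hc
      exact hc.2 z hz
    have hZp : IsPGroup r (T.subgroupOf C) := by
      have := hTp.comap_of_injective C.subtype C.subtype_injective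
      exact this
    have hcen : ∀ z ∈ T.subgroupOf C, ∀ c : C, z * c = c * z := by
      intro z hz c
      apply Subtype.ext
      exact hCT c c.2 z (mem_subgroupOf.1 hz)
    have hidx : ¬ r ∣ (T.subgroupOf C).index := by
      intro hd
      rw [Subgroup.index_eq_card] at hd
      obtain ⟨x, hx⟩ := exists_prime_orderOf_dvd_card' r hd
      obtain ⟨c, rfl⟩ := QuotientGroup.mk_surjective x
      have h1 : c ^ r ∈ T.subgroupOf C := by
        rw [← QuotientGroup.eq_one_iff, QuotientGroup.mk_pow, ← hx, pow_orderOf_eq_one]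
      obtain ⟨m, hm, hcm⟩ := hpr c (hCK c.2)
      have h2 : (c : G) ∈ T := by
        refine aux_pow hr (H := T) (k := 1) (m := m) ?_ hcm hm
        rw [pow_one]
        exact h1
      have h3 : (QuotientGroup.mk c : C ⧸ T.subgroupOf C) = 1 := by
        rw [QuotientGroup.eq_one_iff]
        exact h2
      rw [h3, orderOf_one] at hx
      exact hr.one_lt.ne hx
    obtain ⟨E, hE1, hE2, hE3⟩ := aux_central hr (T.subgroupOf C) hZp hcen hidx
    have hEn : (E.map C.subtype).Normal := by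
      constructor
      rintro _ ⟨e, he, rfl⟩ g
      have hmem : g * (e : G) * g⁻¹ ∈ C := hCn.conj_mem _ e.2 g
      refine ⟨⟨g * (e : G) * g⁻¹, hmem⟩, ?_, rfl⟩
      apply hE2
      rw [Subgroup.orderOf_mk]
      have h1 : orderOf ((MulAut.conj g) (e : G)) = orderOf (e : G) :=
        orderOf_injective (MulAut.conj g).toMonoidHom (MulAut.conj g).injective _
      have h2 : (MulAut.conj g) (e : G) = g * e * g⁻¹ := rfl
      rw [← h2, h1, Subgroup.orderOf_coe]
      intro hd
      apply hE1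
      have h3 : orderOf (⟨e, he⟩ : E) ∣ Nat.card E := orderOf_dvd_natCard _
      rw [Subgroup.orderOf_mk] at h3
      exact hd.trans h3
    have hEc : ¬ r ∣ Nat.card (E.map C.subtype) := by
      have e := E.equivMapOfInjective C.subtype C.subtype_injective
      rwa [← Nat.card_congr e.toEquiv]
    have hEbot := hME G r P hMC (E.map C.subtype) hEn hEc
    have hE0 : E = ⊥ := by
      rw [Subgroup.map_eq_bot_iff] at hEbot
      rw [C.ker_subtype] at hEbot
      exact le_bot_iff.1 hEbot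
    intro x hx hxT
    have hxC : x ∈ C := by
      rw [hCdef, mem_inf, mem_centralizer_iff]
      exact ⟨hx, fun z hz => (hxT z hz).symm⟩
    have h4 : (⟨x, hxC⟩ : C) ∈ T.subgroupOf C ⊔ E := by rw [hE3]; trivial
    rw [hE0, sup_bot_eq] at h4
    exact h4

end Pool.Agent.Helper32.SG.MC1
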