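import Pool.Agent.Helper52.SG.Goals

/-!
# Project SG: PFI2

`p`-subgroups which contain a conjugate of `a` are finite.
-/

set_option autoImplicit false

namespace Pool.Agent.Helper32.SG.PFI2

open Subgroup Pool.H83Shunkov Pool.Agent.Helper29.SH Pool.Agent.Helper52.SG

theorem t (h : Pool.Agent.Helper52.SG.S_PFIN) : Pool.Agent.Helper52.SG.S_PFI2 := by
  intro G _ a p hSt B hpB hc
  obtain ⟨x, hx⟩ := hc
  have hb : St (x⁻¹ * a * x) p := hSt.conj x
  obtain ⟨b, hbdef⟩ : ∃ b, b = x⁻¹ * a * x := ⟨_, rfl⟩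
  rw [← hbdef] at hx hb
  obtain ⟨D, hDB, hDfin, hbD, hDmax⟩ := h G b p hb B hx (fun K hK _ _ => hpB.to_le hK)
  -- every conjugate of `b` under `B` lies in `D`
  have hconj : ∀ g ∈ B, g⁻¹ * b * g ∈ D := by
    intro g hg
    have hfin : ((closure ({b, g⁻¹ * b * g} : Set G) : Subgroup G) : Set G).Finite := hb.pair g
    have hle : closure ({b, g⁻¹ * b * g} : Set G) ≤ B := by
      rw [closure_le]
      rintro y (rfl | rfl)
      · exact hx
      · exact B.mul_mem (B.mul_mem (B.inv_mem hg) hx) hg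
    have hmem : b ∈ closure ({b, g⁻¹ * b * g} : Set G) := subset_closure (by simp)
    exact hDmax _ hle hfin hmem (subset_closure (by simp))
  -- the fibres are finite
  have hfib : ∀ d ∈ (D : Set G), {g : G | g ∈ B ∧ g⁻¹ * b * g = d}.Finite := by
    intro d _
    by_cases hne : ∃ g₀ : G, g₀ ∈ B ∧ g₀⁻¹ * b * g₀ = d
    · obtain ⟨g₀, hg₀, hd⟩ := hne
      refine (hb.tor.image (fun t => t * g₀)).subset ?_
      rintro g ⟨hg, hgd⟩
      refine ⟨g * g₀⁻¹, ⟨?_, ?_⟩, ?_⟩
      · rw [mem_centralizer_singleton_iff]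
        have e : g⁻¹ * b * g = g₀⁻¹ * b * g₀ := by rw [hgd, hd]
        calc g * g₀⁻¹ * b = g * (g₀⁻¹ * b * g₀) * g₀⁻¹ := by group
          _ = g * (g⁻¹ * b * g) * g₀⁻¹ := by rw [e]
          _ = b * (g * g₀⁻¹) := by group
      · have hmem : g * g₀⁻¹ ∈ B := B.mul_mem hg (B.inv_mem hg₀)
        obtain ⟨k, hk⟩ := hpB ⟨g * g₀⁻¹, hmem⟩
        rw [isOfFinOrder_iff_pow_eq_one]
        refine ⟨p ^ k, pow_pos hb.hp.pos k, ?_⟩
        have := congrArg Subtype.val hk
        simpa using this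
      · show g * g₀⁻¹ * g₀ = g
        group
    · refine Set.Finite.subset Set.finite_empty ?_
      rintro g hg
      exact (hne ⟨g, hg⟩).elim
  refine (hDfin.biUnion hfib).subset ?_
  intro g hg
  exact Set.mem_biUnion (hconj g hg) ⟨hg, rfl⟩

end Pool.Agent.Helper32.SG.PFI2
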